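import Mathlib
import Pool.Agent.H865.RB.C

set_option autoImplicit false

namespace Pool.Agent.Results.MP_36bcbe_gt.StatementB

open TopologicalSpace Cardinal Pool.Agent.H865.RB

/-- Statement (B) holds in ZFC, even with `K = L`: there is a pseudocomplete Hausdorff locally
convex space `K` all of whose closed vector subspaces are separable such that `K × K` has a closed
vector subspace which is σ-compact and not separable. -/
theorem result :
    ∃ (K : Type) (_ : AddCommGroup K) (_ : Module ℝ K) (_ : TopologicalSpace K),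
      IsTopologicalAddGroup K ∧ ContinuousSMul ℝ K ∧ T2Space K ∧ LocallyConvexSpace ℝ K ∧
      Pseudocomplete K ∧
      (∀ E : Submodule ℝ K, IsClosed (E : Set K) → SeparableSpace E) ∧
      ∃ L : Submodule ℝ (K × K), IsClosed (L : Set (K × K)) ∧
        IsSigmaCompact (L : Set (K × K)) ∧ ¬ SeparableSpace L := by
  classical
  let I' : Type := (ℵ₁ : Cardinal.{0}).out
  have hI' : #I' = ℵ₁ := mk_out _
  let I : Type := I' × Bool
  have hI : #I = ℵ₁ := by
    rw [mk_prod, lift_id, lift_id, hI', mul_eq_left aleph0_lt_aleph_one.le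
      ((lt_aleph0_of_finite Bool).le.trans aleph0_lt_aleph_one.le) (by simp)]
  have hunc : Uncountable I := by
    rw [← aleph0_lt_mk_iff, hI]; exact aleph0_lt_aleph_one
  obtain ⟨G, hG, hfG, hGJ⟩ := exists_good hI (JJ I') (JJ_JJ I') (JJ_fin I')
  refine ⟨G, inferInstance, inferInstance, inferInstance, inferInstance, inferInstance,
    inferInstance, inferInstance, good_pseudocomplete hG, fun E hE => good_separable hG E hE, ?_⟩
  let L : Submodule ℝ (G × G) :=
    { carrier := {p | (p.2 : I → ℝ) = JJ I' (p.1 : I → ℝ)}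
      zero_mem' := by
        change ((0 : G) : I → ℝ) = JJ I' ((0 : G) : I → ℝ)
        rw [Submodule.coe_zero, map_zero]
      add_mem' := by
        intro a b ha hb
        have ha' : (a.2 : I → ℝ) = JJ I' (a.1 : I → ℝ) := ha
        have hb' : (b.2 : I → ℝ) = JJ I' (b.1 : I → ℝ) := hb
        change ((a.2 + b.2 : G) : I → ℝ) = JJ I' ((a.1 + b.1 : G) : I → ℝ)
        rw [Submodule.coe_add, Submodule.coe_add, map_add, ha', hb']
      smul_mem' := by
        intro c a ha
        have ha' : (a.2 : I → ℝ) = JJ I' (a.1 : I → ℝ) := ha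
        change ((c • a.2 : G) : I → ℝ) = JJ I' ((c • a.1 : G) : I → ℝ)
        rw [Submodule.coe_smul, Submodule.coe_smul, map_smul, ha'] }
  have hfin : ∀ p ∈ L, ((p : G × G).1 : I → ℝ) ∈ fin I := by
    intro p hp
    have hp' : (p.2 : I → ℝ) = JJ I' (p.1 : I → ℝ) := hp
    exact hGJ _ p.1.2 (by rw [← hp']; exact p.2.2)
  refine ⟨L, ?_, ?_, ?_⟩
  · exact isClosed_eq (continuous_subtype_val.comp continuous_snd)
      ((continuous_JJ I').comp (continuous_subtype_val.comp continuous_fst))
  · let φ : ∀ n : ℕ, ball I n → G × G := fun n x =>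
      (⟨x, hfG (ball_subset I n x.2)⟩, ⟨JJ I' x, hfG (JJ_fin I' _ (ball_subset I n x.2))⟩)
    have hφ : ∀ n, Continuous (φ n) := fun n =>
      (Continuous.subtype_mk continuous_subtype_val _).prodMk
        (Continuous.subtype_mk ((continuous_JJ I').comp continuous_subtype_val) _)
    refine ⟨fun n => Set.range (φ n), fun n => ?_, ?_⟩
    · have : CompactSpace (ball I n) := isCompact_iff_compactSpace.mp (isCompact_ball I n)
      exact isCompact_range (hφ n)
    · ext p
      rw [Set.mem_iUnion]
      constructor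
      · rintro ⟨n, x, rfl⟩
        rfl
      · intro hp
        have hp' : (p.2 : I → ℝ) = JJ I' (p.1 : I → ℝ) := hp
        obtain ⟨n, hn⟩ := mem_ball_of_mem_fin (hfin p hp)
        refine ⟨n, ⟨_, hn⟩, ?_⟩
        exact Prod.ext (Subtype.ext rfl) (Subtype.ext hp'.symm)
  · intro hsep
    obtain ⟨D, hD, hDd⟩ := exists_countable_dense L
    have hfin' : ∀ x : L, {i | ((x : G × G).1 : I → ℝ) i ≠ 0}.Finite := fun x => hfin _ x.2
    have hT : (⋃ x ∈ D, {i | ((x : G × G).1 : I → ℝ) i ≠ 0}).Countable :=
      hD.biUnion fun x _ => (hfin' x).countable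
    obtain ⟨i, hi⟩ : ∃ i, i ∉ (⋃ x ∈ D, {i | ((x : G × G).1 : I → ℝ) i ≠ 0}) := by
      by_contra hcon
      push Not at hcon
      have : (Set.univ : Set I).Countable := hT.mono fun i _ => hcon i
      exact not_countable (α := I) (Set.countable_univ_iff.mp this)
    have hcl : IsClosed {x : L | ((x : G × G).1 : I → ℝ) i = 0} :=
      isClosed_eq ((continuous_apply _).comp (continuous_subtype_val.comp
        (continuous_fst.comp continuous_subtype_val))) continuous_const
    have hall : ∀ x : L, ((x : G × G).1 : I → ℝ) i = 0 := by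
      intro x
      refine closure_minimal (fun y hy => ?_) hcl (hDd x)
      by_contra h6
      exact hi (Set.mem_biUnion hy h6)
    have hs : (Pi.single i 1 : I → ℝ) ∈ fin I := by
      change {j | (Pi.single i 1 : I → ℝ) j ≠ 0}.Finite
      refine (Set.finite_singleton i).subset ?_
      intro j hj
      by_contra hji
      exact hj (Pi.single_eq_of_ne hji 1)
    have h7 := hall ⟨(⟨_, hfG hs⟩, ⟨JJ I' _, hfG (JJ_fin I' _ hs)⟩), rfl⟩
    simp at h7

end Pool.Agent.Results.MP_36bcbe_gt.StatementB
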